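import Pool.Agent.J4H12.PZ.Stm

/-!
# Project PZ (helper12): closedness (helper2)
-/

set_option autoImplicit false

open MeasureTheory Set Filter Topology Metric
open scoped Pointwise RealInnerProductSpace ENNReal NNReal

namespace Pool.Agent.J4H2.PZ

open Pool.Agent.H638.IB Pool.Agent.J4H12.PZ

theorem ae_sphere {n : ℕ} {μ : Measure (E n)} (h : μ (sphere (0 : E n) 1)ᶜ = 0) :
    ∀ᵐ v ∂μ, ‖v‖ = 1 := by
  rw [ae_iff]
  have : {a : E n | ¬ ‖a‖ = 1} = (sphere (0 : E n) 1)ᶜ := by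
    ext v; simp
  rw [this]; exact h

theorem int_inner {n : ℕ} {μ : Measure (E n)} [IsFiniteMeasure μ] (h : μ (sphere (0 : E n) 1)ᶜ = 0)
    (u : E n) : Integrable (fun v => |(⟪u, v⟫ : ℝ)|) μ := by
  refine Integrable.of_bound (C := ‖u‖) ?_ ?_
  · exact (by fun_prop : Continuous fun v : E n => |(⟪u, v⟫ : ℝ)|).aestronglyMeasurable
  · filter_upwards [ae_sphere h] with v hv
    rw [Real.norm_eq_abs, abs_abs]
    have := abs_real_inner_le_norm u v
    rwa [hv, mul_one] at this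

theorem norm_le_sum {n : ℕ} (v : E n) :
    ‖v‖ ≤ ∑ i : Fin n, |(⟪(EuclideanSpace.single i (1 : ℝ) : E n), v⟫ : ℝ)| := by
  have h1 : ∀ i : Fin n, (⟪(EuclideanSpace.single i (1 : ℝ) : E n), v⟫ : ℝ) = v i := by
    intro i
    rw [EuclideanSpace.inner_single_left]
    simp
  simp_rw [h1]
  rw [EuclideanSpace.norm_eq, Real.sqrt_le_iff]
  refine ⟨Finset.sum_nonneg fun i _ => abs_nonneg _, ?_⟩
  have h2 := Finset.sum_sq_le_sq_sum_of_nonneg (s := Finset.univ) (f := fun i => |v i|)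
    fun i _ => abs_nonneg _
  simpa only [Real.norm_eq_abs] using h2

/-- total mass -/
theorem mass_le {n : ℕ} {μ : Measure (E n)} [IsFiniteMeasure μ] (h : μ (sphere (0 : E n) 1)ᶜ = 0) :
    μ.real univ ≤ ∑ i : Fin n, ∫ v, |(⟪(EuclideanSpace.single i (1 : ℝ) : E n), v⟫ : ℝ)| ∂μ := by
  have h1 : μ.real univ = ∫ v, ‖v‖ ∂μ := by
    rw [integral_congr_ae (g := fun _ => (1 : ℝ))]
    · simp
    · filter_upwards [ae_sphere h] with v hv using hv
  rw [h1, ← integral_finsetSum _ (fun i _ => int_inner h _)]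
  apply integral_mono_ae
  · refine Integrable.of_bound (C := 1) continuous_norm.aestronglyMeasurable ?_
    filter_upwards [ae_sphere h] with v hv
    simp [hv]
  · exact integrable_finsetSum _ (fun i _ => int_inner h _)
  · exact Eventually.of_forall fun v => norm_le_sum v

theorem t_CLO : S_HOM → S_SC → S_GS → S_CLO := by
  intro hHOM hSC hGS N hN K hK hyp
  set δ : ℕ → ℝ := fun k => 1 / ((k : ℝ) + 2) with hδ
  have hδ0 : ∀ k, 0 < δ k := fun k => by rw [hδ]; positivity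
  have hδ1 : ∀ k, δ k ≤ 1 / 2 := fun k => by
    rw [hδ]
    simp only
    have := Nat.cast_nonneg (α := ℝ) k
    gcongr
    linarith
  have hδl : Tendsto δ atTop (𝓝 0) := by
    have h1 := tendsto_one_div_add_atTop_nhds_zero_nat (𝕜 := ℝ)
    have h2 := (tendsto_add_atTop_iff_nat 1).2 h1
    refine h2.congr fun k => ?_
    rw [hδ]
    push_cast
    ring_nf
  choose K' hK' using fun k => hyp (δ k) (hδ0 k) (by linarith [hδ1 k])
  have hB : ∀ k, Body (K' k) := fun k => (hK' k).1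
  have hP : ∀ k, PZ (K' k) := fun k => (hK' k).2.1
  have hl : ∀ k, (1 - δ k) • K ⊆ K' k := fun k => (hK' k).2.2.1
  have hu : ∀ k, K' k ⊆ (1 + δ k) • K := fun k => (hK' k).2.2.2
  choose μ hμf hμs hμ using hP
  have hlow : ∀ k x, x ≠ 0 → (1 - δ k) ^ N * A K x ≤ A (K' k) x := by
    intro k x hx
    rw [← hSC K hK (1 - δ k) (by linarith [hδ1 k]) x hx]
    exact (hHOM ((1 - δ k) • K)).2.2 (K' k) (hl k) (hB k) x
  have hupp : ∀ k x, x ≠ 0 → A (K' k) x ≤ (1 + δ k) ^ N * A K x := by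
    intro k x hx
    rw [← hSC K hK (1 + δ k) (by linarith [hδ0 k]) x hx]
    exact (hHOM (K' k)).2.2 _ (hu k) ((hGS K hK).1 _ (by linarith [hδ0 k])).1 x
  have hpos : ∀ x, x ≠ 0 → 0 < A K x := by
    intro x hx
    have h0 := (hHOM K).2.1 x
    rcases h0.lt_or_eq with h | h
    · exact h
    · exfalso
      have h1 := hupp 0 x hx
      rw [← h, mul_zero] at h1
      have h2 := (hHOM (K' 0)).2.1 x
      have h3 : A (K' 0) x = 0 := le_antisymm h1 h2
      have h4 := hμ 0 x hx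
      rw [h3, zero_mul] at h4
      exact zero_ne_one h4
  have hlim : ∀ x, x ≠ 0 → Tendsto (fun k => A (K' k) x) atTop (𝓝 (A K x)) := by
    intro x hx
    have e1 : Tendsto (fun k => (1 - δ k) ^ N * A K x) atTop (𝓝 (A K x)) := by
      have := (((tendsto_const_nhds (x := (1 : ℝ))).sub hδl).pow N).mul_const (A K x)
      simpa using this
    have e2 : Tendsto (fun k => (1 + δ k) ^ N * A K x) atTop (𝓝 (A K x)) := by
      have := (((tendsto_const_nhds (x := (1 : ℝ))).add hδl).pow N).mul_const (A K x)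
      simpa using this
    exact tendsto_of_tendsto_of_tendsto_of_le_of_le e1 e2 (fun k => hlow k x hx)
      (fun k => hupp k x hx)
  have hI : ∀ k x, x ≠ 0 → ∫ v, |(⟪x, v⟫ : ℝ)| ∂(μ k) = (A (K' k) x)⁻¹ := fun k x hx =>
    eq_inv_of_mul_eq_one_right (hμ k x hx)
  -- masses
  set Cst : ℝ := ∑ i : Fin (N + 1), 2 ^ N * (A K (EuclideanSpace.single i 1))⁻¹ with hCst
  have hmass : ∀ k, (μ k).real univ ≤ Cst := by
    intro k
    haveI := hμf k
    refine (mass_le (hμs k)).trans (Finset.sum_le_sum fun i _ => ?_)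
    have hne : (EuclideanSpace.single i (1 : ℝ) : E (N + 1)) ≠ 0 := by
      intro h
      have := congrArg (fun v : E (N + 1) => v i) h
      simp at this
    rw [hI k _ hne]
    have h1 := hlow k _ hne
    have h2 := hpos _ hne
    have h3 : (1 / 2 : ℝ) ^ N ≤ (1 - δ k) ^ N := by
      apply pow_le_pow_left₀ (by norm_num)
      linarith [hδ1 k]
    have h4 := (mul_le_mul_of_nonneg_right h3 h2.le).trans h1
    calc (A (K' k) (EuclideanSpace.single i 1))⁻¹
        ≤ ((1 / 2 : ℝ) ^ N * A K (EuclideanSpace.single i 1))⁻¹ := inv_anti₀ (by positivity) h4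
      _ = 2 ^ N * (A K (EuclideanSpace.single i 1))⁻¹ := by
          rw [mul_inv, one_div, inv_pow, inv_inv]
  have hC0 : 0 ≤ Cst := (measureReal_nonneg (μ := μ 0) (s := univ)).trans (hmass 0)
  set F : ℕ → FiniteMeasure (E (N + 1)) := fun k => ⟨μ k, hμf k⟩ with hF
  have hFm : ∀ k, F k ∈ {ρ : FiniteMeasure (E (N + 1)) | ρ.mass ≤ Cst.toNNReal ∧
      ρ (sphere (0 : E (N + 1)) 1)ᶜ = 0} := by
    intro k
    refine ⟨?_, (FiniteMeasure.null_iff_toMeasure_null _ _).2 (hμs k)⟩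
    rw [← NNReal.coe_le_coe, Real.coe_toNNReal _ hC0]
    exact hmass k
  have hcomp := isCompact_setOfPred_finiteMeasure_le_of_isCompact Cst.toNNReal
    (isCompact_sphere (0 : E (N + 1)) 1)
  obtain ⟨ν, hν, hlimν⟩ := hcomp.ultrafilter_le_nhds' ((hyperfilter ℕ).map F)
    (Ultrafilter.mem_map.2 (Filter.Eventually.of_forall hFm))
  have hT : Tendsto F (hyperfilter ℕ : Filter ℕ) (𝓝 ν) := by
    rw [Ultrafilter.coe_map] at hlimν
    exact hlimν
  refine ⟨(ν : Measure (E (N + 1))), inferInstance,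
    (FiniteMeasure.null_iff_toMeasure_null _ _).1 hν.2, fun u hu => ?_⟩
  let g : BoundedContinuousFunction (E (N + 1)) ℝ :=
    BoundedContinuousFunction.ofNormedAddCommGroup (fun v => min |(⟪u, v⟫ : ℝ)| ‖u‖)
      (by fun_prop) ‖u‖ (by
        intro v
        rw [Real.norm_eq_abs, abs_of_nonneg (le_min (abs_nonneg _) (norm_nonneg _))]
        exact min_le_right _ _)
  have hg : ∀ (ρ : Measure (E (N + 1))), ρ (sphere (0 : E (N + 1)) 1)ᶜ = 0 →
      ∫ v, g v ∂ρ = ∫ v, |(⟪u, v⟫ : ℝ)| ∂ρ := by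
    intro ρ hρ
    apply integral_congr_ae
    filter_upwards [ae_sphere hρ] with v hv
    show min |(⟪u, v⟫ : ℝ)| ‖u‖ = |(⟪u, v⟫ : ℝ)|
    rw [min_eq_left]
    have := abs_real_inner_le_norm u v
    rwa [hv, mul_one] at this
  have t1 := (FiniteMeasure.tendsto_iff_forall_integral_tendsto.1 hT) g
  have t2 : Tendsto (fun k => ∫ v, g v ∂(F k : Measure (E (N + 1)))) (hyperfilter ℕ : Filter ℕ)
      (𝓝 (A K u)⁻¹) := by
    have h1 : ∀ k, ∫ v, g v ∂(F k : Measure (E (N + 1))) = (A (K' k) u)⁻¹ :=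
      fun k => (hg _ (hμs k)).trans (hI k u hu)
    simp_rw [h1]
    exact ((hlim u hu).inv₀ (hpos u hu).ne').mono_left Nat.hyperfilter_le_atTop
  have h3 := tendsto_nhds_unique t1 t2
  rw [hg _ ((FiniteMeasure.null_iff_toMeasure_null _ _).1 hν.2)] at h3
  rw [h3, mul_inv_cancel₀ (hpos u hu).ne']

end Pool.Agent.J4H2.PZ
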